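import Pool.Agent.H.MP_e19463_co.A
import Pool.Agent.Lib.helper1.Menger

namespace Pool.Agent.H.MP_770436_co

open Finset Module Submodule Pool.Agent.Lib.helper1.Menger Pool.Agent.H.MP_e19463_co Classical

section
variable {F : Type} [Field F] {ι : Type} [Fintype ι]

theorem rank_eq {β : Type} [Fintype β] [DecidableEq β] {κ : Type} [Fintype κ] (A : Matrix ι β F) (B : Matrix κ β F)
    (h : span F (Set.range A) = span F (Set.range B)) (X : Set β) :
    finrank F (span F ((fun j i => A i j) '' X)) = finrank F (span F ((fun j i => B i j) '' X)) := by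
  have k : ∀ {μ : Type} [Fintype μ] (M : Matrix μ β F),
      finrank F (span F ((fun j i => M i j) '' X)) + finrank F (Submodule.comap
        (span F ((fun j => Pi.single j (1 : F)) '' X) : Submodule F (β → F)).subtype
        (LinearMap.ker M.mulVecLin)) =
        finrank F (span F ((fun j => Pi.single j (1 : F)) '' X) : Submodule F (β → F)) := by
    intro μ _ M
    rw [← LinearMap.ker_domRestrict, ← LinearMap.finrank_range_add_finrank_ker
      (M.mulVecLin.domRestrict _), LinearMap.range_domRestrict, map_span, Set.image_image]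
    have : (fun j => M.mulVecLin (Pi.single j 1)) = fun j i => M i j := by
      ext j i; simp
    rw [this]
  have m : ∀ {μ : Type} [Fintype μ] (M : Matrix μ β F) (x), x ∈ LinearMap.ker M.mulVecLin ↔
      ∀ p ∈ span F (Set.range M), p ⬝ᵥ x = 0 := by
    intro μ _ M x
    refine ⟨fun g p hp => ?_, fun g => funext fun i => g _ (subset_span ⟨i, rfl⟩)⟩
    induction hp using span_induction with
    | mem p m => obtain ⟨i, rfl⟩ := m; exact congrFun g i
    | zero => simp
    | add p q _ _ a c => simp [a, c]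
    | smul c p _ a => simp [a]
  have e : LinearMap.ker A.mulVecLin = LinearMap.ker B.mulVecLin := by
    ext x; rw [m, m, h]
  have h1 := k A
  have h2 := k B
  rw [e] at h1
  omega

end

variable {V : Type} [Fintype V] (G : SimpleGraph V)

noncomputable def A : Matrix V G.edgeSet (ZMod 2) := fun v e => if v ∈ e.1 then 1 else 0

noncomputable def rk (X : Finset G.edgeSet) : ℕ :=
  finrank (ZMod 2) (span (ZMod 2) ((fun j i => A G i j) '' (X : Set G.edgeSet)))

theorem dot {a b : V} (h : G.Adj a b) (f : V → ZMod 2) :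
    ∑ v, A G v ⟨s(a, b), h⟩ * f v = f a + f b := by
  simp only [A, Sym2.mem_iff, ite_mul, one_mul, zero_mul]
  rw [← sum_filter, ← sum_pair h.ne]
  congr 1
  ext v
  simp

theorem cnt (t : ℕ) (X : Finset G.edgeSet) : (univ.filter fun σ : V → Fin t → ZMod 2 =>
    ∀ e ∈ X, ∀ i, ∑ v, A G v e * σ v i = 0).card = (2 ^ t) ^ (Fintype.card V - rk G X) := by
  let M : Matrix X V (ZMod 2) := fun e v => A G v e
  have h1 := LinearMap.finrank_range_add_finrank_ker M.mulVecLin
  have h2 : finrank (ZMod 2) (LinearMap.range M.mulVecLin) = rk G X := by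
    rw [rk, Set.image_eq_range]
    exact M.rank_eq_finrank_span_row
  have h3 : Nat.card (LinearMap.ker M.mulVecLin) = 2 ^ (Fintype.card V - rk G X) := by
    rw [natCard_eq_pow_finrank (K := ZMod 2), Nat.card_zmod, ← h2]
    simp only [finrank_fintype_fun_eq_card] at h1
    congr 1
    omega
  rw [← pow_mul, mul_comm, pow_mul, ← h3, ← Nat.card_fin t, ← Nat.card_fun, Nat.card_fin,
    ← Fintype.card_subtype, ← Nat.card_eq_fintype_card]
  exact Nat.card_congr ⟨fun σ i => ⟨fun v => σ.1 v i, funext fun e => σ.2 e.1 e.2 i⟩,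
    fun τ => ⟨fun v i => (τ i).1 v, fun e he i => congrFun (τ i).2 ⟨e, he⟩⟩,
    fun _ => rfl, fun _ => rfl⟩

theorem col (t : ℕ) : (Nat.card (G.Coloring (Fin (2 ^ t))) : ℂ) =
    ∑ X : Finset G.edgeSet, (-1) ^ X.card * ((2 ^ t : ℕ) : ℂ) ^ (Fintype.card V - rk G X) := by
  have e : Fin (2 ^ t) ≃ (Fin t → ZMod 2) := Fintype.equivOfCardEq (by simp)
  let m : (V → Fin t → ZMod 2) → G.edgeSet → Prop := fun σ e => ∀ i, ∑ v, A G v e * σ v i = 0
  have hm : ∀ σ a b (h : G.Adj a b), m σ ⟨s(a, b), h⟩ ↔ σ a = σ b := fun σ a b h => by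
    simp only [m, dot G h fun v => σ v _, funext_iff, CharTwo.add_eq_zero]
  have c : Nat.card (G.Coloring (Fin t → ZMod 2)) = (univ.filter fun σ => ∀ e, ¬ m σ e).card := by
    rw [← Fintype.card_subtype, ← Nat.card_eq_fintype_card]
    refine Nat.card_congr ⟨fun C => ⟨C, ?_⟩, fun σ => SimpleGraph.Coloring.mk σ.1 fun h g =>
      σ.2 _ ((hm _ _ _ h).2 g), fun _ => rfl, fun _ => rfl⟩
    rintro ⟨e, he⟩
    induction e using Sym2.ind with
    | h a b => exact fun g => C.valid he ((hm _ _ _ he).1 g)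
  rw [Nat.card_congr (G.recolorOfEquiv e), c]
  simp only [← Nat.cast_pow, ← cnt, card_filter, Nat.cast_sum, mul_sum]
  rw [sum_comm]
  refine sum_congr rfl fun σ _ => ?_
  have := prod_one_add (f := fun e => if m σ e then (-1 : ℂ) else 0) univ
  rw [powerset_univ] at this
  refine Eq.trans ?_ (this.trans (sum_congr rfl fun X _ => ?_))
  · split_ifs with g
    · simp [g]
    · push Not at g
      obtain ⟨e, he⟩ := g
      rw [prod_eq_zero (mem_univ e) (by simp [he]), Nat.cast_zero]
  · rw [prod_ite_zero]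
    split_ifs <;> simp

theorem bound (k : ℕ) (h : ∀ u v : V, u ≠ v → ∃ S, u ∈ S ∧ v ∉ S ∧ cut G S ≤ k) (q : ℂ)
    (hq : ∑ X : Finset G.edgeSet, (-1) ^ X.card * q ^ (Fintype.card V - rk G X) = 0) :
    ‖q‖ ≤ 2 ^ (k + 1) := by
  refine le_of_not_gt fun g => ?_
  have q0 : 0 < ‖q‖ := lt_trans (by positivity) g
  let B : Matrix {X : Finset V // cut G X ≤ k} G.edgeSet (ZMod 2) :=
    fun X e => ∑ v, A G v e * if v ∈ X.1 then 1 else 0
  have r := rank_eq (A G) B (by
    have : Set.range B = (A G).vecMulLinear '' Set.range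
        fun X : {X : Finset V // cut G X ≤ k} => fun a => if a ∈ X.1 then (1 : ZMod 2) else 0 := by
      rw [← Set.range_comp]
      congr 1
      ext X e
      simp [B, Matrix.vecMul, dotProduct]
    have tp := Submodule.eq_top_iff'.2 (span_top (ZMod 2) k h)
    rw [this, ← map_span, tp, Submodule.map_top]
    exact (range_vecMulLinear _).symm)
  refine (main (fun j i => B i j) q⁻¹ k ?_ univ univ
    (fun j _ => ⟨fun e => ?_, by simp⟩) fun i D _ hD => ?_).1 ?_
  · rw [norm_inv, ← div_eq_mul_inv, div_le_one q0]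
    exact g.le
  · obtain ⟨j, hj⟩ := j
    induction j using Sym2.ind with
    | h a b =>
    obtain ⟨S, s1, s2, s3⟩ := h a b hj.ne
    have := congrFun e ⟨S, s3⟩
    simp only [B] at this
    rw [dot G hj] at this
    simp [s1, s2] at this
  · refine le_trans ?_ i.2
    rw [cut, ← Fintype.sum_prod_type', ← card_filter, ← card_map (Function.Embedding.subtype _)]
    refine (card_le_card fun e he => ?_).trans (card_image_le (f := fun p => s(p.1, p.2)))
    obtain ⟨⟨j, hj⟩, m, rfl⟩ := mem_map.1 he
    induction j using Sym2.ind with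
    | h a b =>
    have := hD _ m
    simp only [B] at this
    rw [dot G hj] at this
    by_cases x : a ∈ i.1 <;> by_cases y : b ∈ i.1
    · simp [x, y, CharTwo.add_self_eq_zero] at this
    · exact mem_image.2 ⟨(a, b), mem_filter.2 ⟨mem_univ _, x, y, hj⟩, rfl⟩
    · exact mem_image.2 ⟨(b, a), mem_filter.2 ⟨mem_univ _, y, x, hj.symm⟩, Sym2.eq_swap⟩
    · simp [x, y] at this
  · have q1 : q ≠ 0 := norm_pos_iff.1 q0
    refine mul_left_cancel₀ (pow_ne_zero (Fintype.card V) q1) ?_
    rw [mul_zero, ← hq, Z, powerset_univ, mul_sum]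
    refine sum_congr rfl fun X _ => ?_
    have le : rk G X ≤ Fintype.card V := (finrank_le _).trans_eq (finrank_fintype_fun_eq_card _)
    rw [bot_sup_eq, ← r, pow_sub₀ _ q1 le, inv_pow, rk]
    ring

end Pool.Agent.H.MP_770436_co
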